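import Pool.Agent.helper10.QT.SpecX

/-! AT (MP_bf63dc_nt), row THP: a third of all pairs of linear forms. -/

set_option autoImplicit false

namespace Pool.Agent.AT

open Finset Pool.Agent.helper85.FC

open Classical in
theorem THP_card (R : ℕ × ℤ → ℕ × ℤ → Prop) (V : Finset (ℕ × ℤ)) (Q : (Fin 4 → ℕ × ℤ) → Prop) [inst : DecidablePred Q]
    (hQ : ∀ x ∈ V, ∀ y ∈ V, ∀ z ∈ V, ∀ w ∈ V, R x y → R x z → R x w → R y z → R y w → R z w → Q ![x, y, z, w]) :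
    #{t ∈ V ×ˢ V ×ˢ V ×ˢ V | R t.1 t.2.1 ∧ R t.1 t.2.2.1 ∧ R t.1 t.2.2.2 ∧ R t.2.1 t.2.2.1 ∧ R t.2.1 t.2.2.2 ∧
      R t.2.2.1 t.2.2.2} ≤ #{f ∈ Fintype.piFinset (fun _ : Fin 4 => V) | Q f} := by
  refine Finset.card_le_card_of_injOn (fun t => ![t.1, t.2.1, t.2.2.1, t.2.2.2]) ?_ ?_
  · intro t ht
    have ht' := Finset.mem_filter.mp (Finset.mem_coe.mp ht)
    obtain ⟨h1, h2, h3, h4, h5, h6, h7⟩ := ht'
    rw [Finset.mem_product, Finset.mem_product, Finset.mem_product] at h1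
    obtain ⟨a1, a2, a3, a4⟩ := h1
    apply Finset.mem_coe.mpr
    rw [Finset.mem_filter, Fintype.mem_piFinset]
    refine ⟨?_, hQ _ a1 _ a2 _ a3 _ a4 h2 h3 h4 h5 h6 h7⟩
    intro i
    fin_cases i
    · exact a1
    · exact a2
    · exact a3
    · exact a4
  · intro t _ t' _ h
    have h0 := congrFun h 0
    have h1 := congrFun h 1
    have h2 := congrFun h 2
    have h3 := congrFun h 3
    simp only [Matrix.cons_val_zero, Matrix.cons_val_one, Matrix.cons_val] at h0 h1 h2 h3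
    exact Prod.ext h0 (Prod.ext h1 (Prod.ext h2 h3))

open Classical in
theorem THP (h1 : MM_stmt) (h2 : PSY_stmt) (h3 : ADV_stmt) : THP_stmt := by
  rintro ⟨C, δ, hC, hδ, hδ1, hQ⟩
  refine ⟨3 / 2 * C + 1, δ, by positivity, hδ, ?_⟩
  intro V hV
  rcases Nat.eq_zero_or_pos (#V) with hn | hn
  · rw [hn, Nat.cast_zero, Real.zero_rpow (by linarith)]
    norm_num
  have hn0 : (0 : ℝ) < (#V : ℝ) := Nat.cast_pos.mpr hn
  have hn1 : (1 : ℝ) ≤ (#V : ℝ) := by exact_mod_cast hn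
  obtain ⟨R, hR⟩ : ∃ R : ℕ × ℤ → ℕ × ℤ → Prop, ∀ f g, R f g ↔ (f ≠ g ∧ ¬ Pair f g) :=
    ⟨fun f g => f ≠ g ∧ ¬ Pair f g, fun _ _ => Iff.rfl⟩
  have hMM := h1 V R (fun x y h => (hR _ _).mpr ⟨((hR _ _).mp h).1.symm, fun hp => ((hR _ _).mp h).2 (h2.1 _ _ hp)⟩)
    (fun x h => ((hR _ _).mp h).1 rfl)
  have hN4 : (#{t ∈ V ×ˢ V ×ˢ V ×ˢ V | R t.1 t.2.1 ∧ R t.1 t.2.2.1 ∧ R t.1 t.2.2.2 ∧ R t.2.1 t.2.2.1 ∧ R t.2.1 t.2.2.2 ∧
      R t.2.2.1 t.2.2.2} : ℝ) ≤ C * (#V : ℝ) ^ 4 * (#V : ℝ) ^ (-δ) := by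
    have e1 := THP_card R V (fun f => Adm f ∧ ∀ i j, i ≠ j → ¬ Pair (f i) (f j)) (by
      intro x hx y hy z hz w hw r1 r2 r3 r4 r5 r6
      refine ⟨h3 _ ?_, ?_⟩
      · intro i
        fin_cases i
        · exact hV x hx
        · exact hV y hy
        · exact hV z hz
        · exact hV w hw
      · intro i j hij
        fin_cases i <;> fin_cases j
        · exact absurd rfl hij
        · exact ((hR _ _).mp r1).2
        · exact ((hR _ _).mp r2).2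
        · exact ((hR _ _).mp r3).2
        · exact fun hp => ((hR _ _).mp r1).2 (h2.1 _ _ hp)
        · exact absurd rfl hij
        · exact ((hR _ _).mp r4).2
        · exact ((hR _ _).mp r5).2
        · exact fun hp => ((hR _ _).mp r2).2 (h2.1 _ _ hp)
        · exact fun hp => ((hR _ _).mp r4).2 (h2.1 _ _ hp)
        · exact absurd rfl hij
        · exact ((hR _ _).mp r6).2
        · exact fun hp => ((hR _ _).mp r3).2 (h2.1 _ _ hp)
        · exact fun hp => ((hR _ _).mp r5).2 (h2.1 _ _ hp)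
        · exact fun hp => ((hR _ _).mp r6).2 (h2.1 _ _ hp)
        · exact absurd rfl hij)
    have e2 := hQ (fun _ => V) (#V) hn (fun _ => le_refl _) (fun _ f hf => (hV f hf).1)
    have e3 : ∏ _i : Fin 4, ((#V : ℕ) : ℝ) = (#V : ℝ) ^ 4 := by
      rw [Finset.prod_const, Finset.card_univ, Fintype.card_fin]
    rw [e3] at e2
    exact le_trans (Nat.cast_le.mpr e1) e2
  have hsplit : (#V : ℝ) ^ 2 ≤ #{p ∈ V ×ˢ V | R p.1 p.2} + (#V : ℝ) + #{p ∈ V ×ˢ V | Pair p.1 p.2} := by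
    have e1 : #(V ×ˢ V) ≤ #{p ∈ V ×ˢ V | R p.1 p.2} + #V + #{p ∈ V ×ˢ V | Pair p.1 p.2} := by
      have e2 : V ×ˢ V ⊆ ({p ∈ V ×ˢ V | R p.1 p.2} ∪ V.image (fun x => (x, x))) ∪ {p ∈ V ×ˢ V | Pair p.1 p.2} := by
        intro p hp
        rw [Finset.mem_union, Finset.mem_union, Finset.mem_filter, Finset.mem_filter, Finset.mem_image]
        by_cases hpp : Pair p.1 p.2
        · exact Or.inr ⟨hp, hpp⟩
        · left
          by_cases he : p.1 = p.2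
          · right
            exact ⟨p.1, (Finset.mem_product.mp hp).1, Prod.ext rfl he⟩
          · left
            exact ⟨hp, (hR _ _).mpr ⟨he, hpp⟩⟩
      refine (Finset.card_le_card e2).trans ((Finset.card_union_le _ _).trans ?_)
      refine Nat.add_le_add_right ((Finset.card_union_le _ _).trans (Nat.add_le_add_left Finset.card_image_le _)) _
    rw [Finset.card_product] at e1
    have e3 : ((#V * #V : ℕ) : ℝ) ≤ ((#{p ∈ V ×ˢ V | R p.1 p.2} + #V + #{p ∈ V ×ˢ V | Pair p.1 p.2} : ℕ) : ℝ) := by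
      exact_mod_cast e1
    push_cast at e3
    nlinarith
  have hpow : (#V : ℝ) ^ 4 * (#V : ℝ) ^ (-δ) = (#V : ℝ) ^ 2 * (#V : ℝ) ^ (2 - δ) := by
    have e1 : (#V : ℝ) ^ (2 - δ) = (#V : ℝ) ^ 2 * (#V : ℝ) ^ (-δ) := by
      rw [sub_eq_add_neg, Real.rpow_add hn0, Real.rpow_two]
    rw [e1]
    ring
  have hN2 : (#{p ∈ V ×ˢ V | R p.1 p.2} : ℝ) ≤ 2 / 3 * (#V : ℝ) ^ 2 + 3 / 2 * C * (#V : ℝ) ^ (2 - δ) := by
    have e1 : (#V : ℝ) ^ 2 * (#{p ∈ V ×ˢ V | R p.1 p.2} : ℝ) ≤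
        (#V : ℝ) ^ 2 * (2 / 3 * (#V : ℝ) ^ 2 + 3 / 2 * C * (#V : ℝ) ^ (2 - δ)) := by
      refine hMM.trans ?_
      have e2 := mul_le_mul_of_nonneg_left hN4 (by norm_num : (0 : ℝ) ≤ 3 / 2)
      have e3 : 3 / 2 * (C * (#V : ℝ) ^ 4 * (#V : ℝ) ^ (-δ)) = 3 / 2 * C * ((#V : ℝ) ^ 2 * (#V : ℝ) ^ (2 - δ)) := by
        rw [← hpow]
        ring
      rw [e3] at e2
      nlinarith
    exact le_of_mul_le_mul_left e1 (by positivity)
  have hnle : (#V : ℝ) ≤ (#V : ℝ) ^ (2 - δ) := by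
    have e1 : (#V : ℝ) ^ (1 : ℝ) ≤ (#V : ℝ) ^ (2 - δ) := Real.rpow_le_rpow_of_exponent_le hn1 (by linarith)
    rwa [Real.rpow_one] at e1
  linarith

end Pool.Agent.AT
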